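import Pool.Agent.Q149.FUe

/-!
# MP_dbd06c_co, Q1: the coefficient sequences are unimodal

`F_0 = F_1 = 1`, `F_{s+2} = (1 + q + 2 q^2) F_{s+1} + q^3 F_s`.  For every `s` the coefficient
sequence of `F_s` is unimodal.
-/

namespace Pool.Agent.Results.MP_dbd06c_co.Unimodal

open Polynomial

/-- `F : ℕ → ℤ[X]` is the sequence of polynomials of the problem. -/
def IsFibSeq (F : ℕ → ℤ[X]) : Prop :=
  F 0 = 1 ∧ F 1 = 1 ∧ ∀ s, F (s + 2) = (1 + X + 2 * X ^ 2) * F (s + 1) + X ^ 3 * F s

/-- The sequence exists, is unique, and for every `s` the coefficient sequence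
`a_0, a_1, …, a_d` (`d = deg F_s`) is unimodal: there is an index `m ≤ d` with
`a_0 ≤ … ≤ a_m ≥ … ≥ a_d`. -/
theorem result :
    (∃! F : ℕ → ℤ[X], IsFibSeq F) ∧
    ∀ F : ℕ → ℤ[X], IsFibSeq F → ∀ s : ℕ, ∃ m ≤ (F s).natDegree,
      (∀ i j, i ≤ j → j ≤ m → (F s).coeff i ≤ (F s).coeff j) ∧
      (∀ i j, m ≤ i → i ≤ j → j ≤ (F s).natDegree → (F s).coeff j ≤ (F s).coeff i) := by
  have huniq : ∀ F : ℕ → ℤ[X], IsFibSeq F → F = Q149.FU.F := by
    intro F hF
    funext s
    induction s using Nat.strong_induction_on with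
    | _ s ih =>
      match s, ih with
      | 0, _ => rw [hF.1, Q149.FU.F]
      | 1, _ => rw [hF.2.1, Q149.FU.F]
      | (s + 2), ih =>
        rw [hF.2.2 s, Q149.FU.F, ih (s + 1) (by omega), ih s (by omega)]
  refine ⟨⟨Q149.FU.F, ⟨by rw [Q149.FU.F], by rw [Q149.FU.F], fun s => by rw [Q149.FU.F]⟩,
    fun G hG => huniq G hG⟩, ?_⟩
  intro F hF s
  rw [huniq F hF]
  obtain ⟨M, h1, h2⟩ := Q149.FU.unim_all s
  have hup : ∀ i j, i ≤ j → j ≤ M → (Q149.FU.F s).coeff i ≤ (Q149.FU.F s).coeff j := by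
    intro i j hij hj
    induction j, hij using Nat.le_induction with
    | base => exact le_rfl
    | succ j hij ih => exact (ih (by omega)).trans (h1 j (by omega))
  have hdown : ∀ i j, M ≤ i → i ≤ j → (Q149.FU.F s).coeff j ≤ (Q149.FU.F s).coeff i := by
    intro i j hi hij
    induction j, hij using Nat.le_induction with
    | base => exact le_rfl
    | succ j hij ih => exact (h2 j (by omega)).trans ih
  refine ⟨min M (Q149.FU.F s).natDegree, min_le_right _ _, ?_, ?_⟩
  · intro i j hij hj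
    exact hup i j hij (hj.trans (min_le_left _ _))
  · intro i j hi hij hj
    rcases le_total M (Q149.FU.F s).natDegree with h | h
    · rw [min_eq_left h] at hi
      exact hdown i j hi hij
    · rw [min_eq_right h] at hi
      have : i = j := le_antisymm hij (hj.trans hi)
      rw [this]

end Pool.Agent.Results.MP_dbd06c_co.Unimodal
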